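import Pool.Agent.NTW.StmtsA

/-!
# Row ntw CN2 (MP_e54c4c_gt): combinatorics of the classes of an involution
-/

set_option autoImplicit false

namespace Pool.Agent.NTW.H87

open Pool.Agent.NTW

theorem cn2 : Cn2Stmt := by
  intro K τ f hτ h1 h2
  classical
  obtain ⟨f', hf'⟩ : ∃ f' : Fin K → Fin K, ∀ a, f' a = min (f a) (τ (f a)) :=
    ⟨fun a => min (f a) (τ (f a)), fun _ => rfl⟩
  obtain ⟨h, hh1, hh2⟩ : ∃ h : Fin K → Fin K,
      (∀ a, (∃ b, b < a ∧ (f b = f a ∨ f b = τ (f a))) → h a = τ (f' a)) ∧
      (∀ a, (¬ ∃ b, b < a ∧ (f b = f a ∨ f b = τ (f a))) → h a = f' a) :=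
    ⟨fun a => if ∃ b, b < a ∧ (f b = f a ∨ f b = τ (f a)) then τ (f' a) else f' a,
      fun a ha => if_pos ha, fun a ha => if_neg ha⟩
  have hc : ∀ a, f' a = f a ∨ f' a = τ (f a) := fun a => by
    rw [hf']
    exact min_choice _ _
  have hcl : ∀ a, h a = f a ∨ h a = τ (f a) := fun a => by
    by_cases hb : ∃ b, b < a ∧ (f b = f a ∨ f b = τ (f a))
    · rw [hh1 a hb]
      rcases hc a with h | h
      · right; rw [h]
      · left; rw [h, hτ]
    · rw [hh2 a hb]
      exact hc a
  have hsame : ∀ a b, (f b = f a ∨ f b = τ (f a)) → f' b = f' a := by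
    intro a b hab
    rcases hab with e | e
    · rw [hf', hf', e]
    · rw [hf', hf', e, hτ, min_comm]
  have hsym : ∀ a b, (f b = f a ∨ f b = τ (f a)) → (f a = f b ∨ f a = τ (f b)) := by
    intro a b hab
    rcases hab with e | e
    · exact Or.inl e.symm
    · right; rw [e, hτ]
  have hcls : ∀ a b, h a = h b → (f b = f a ∨ f b = τ (f a)) := by
    intro a b hab
    rcases hcl a with e | e <;> rcases hcl b with e' | e'
    · left; rw [← e, ← e', hab]
    · right
      have : τ (f b) = f a := by rw [← e, ← e', hab]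
      rw [← this, hτ]
    · right; rw [← e, ← e', hab]
    · left
      have : τ (f b) = τ (f a) := by rw [← e, ← e', hab]
      rw [← hτ (f b), this, hτ]
  have key : ∀ a b, a < b → h a ≠ h b := by
    intro a b hlt hab
    have hab' := hcls a b hab
    have hb : h b = τ (f' b) := hh1 b ⟨a, hlt, hsym a b hab'⟩
    have ha : h a = f' a := by
      refine hh2 a ?_
      rintro ⟨d, hd, hda⟩
      exact h2 a b d hlt.ne hd.ne' (hd.trans hlt).ne' hab' hda
    have e : f' a = τ (f' a) :=
      ha.symm.trans (hab.trans (hb.trans (congrArg τ (hsame a b hab'))))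
    have hne := h1 a b hlt.ne hab'
    rcases hc a with e' | e'
    · rw [e'] at e
      exact hne e.symm
    · rw [e', hτ] at e
      exact hne e
  have hinj : Function.Injective h := by
    intro a b hab
    rcases lt_trichotomy a b with hlt | heq | hlt
    · exact absurd hab (key a b hlt)
    · exact heq
    · exact absurd hab.symm (key b a hlt)
  let e : Equiv.Perm (Fin K) := Equiv.ofBijective h (Finite.injective_iff_bijective.1 hinj)
  refine ⟨e.symm, fun i => ?_⟩
  have hi : h (e.symm i) = i := e.apply_symm_apply i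
  rcases hcl (e.symm i) with e' | e'
  · left; rw [← e', hi]
  · right
    have : τ (f (e.symm i)) = i := by rw [← e', hi]
    rw [← hτ (f (e.symm i)), this]

end Pool.Agent.NTW.H87
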